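import Mathlib
import Pool.Agent.TH529.SH.Tree

set_option autoImplicit false

/-!
# Trees with few vertices of even degree: labellings with few superfluous labels
-/

namespace Pool.Agent.Results.MP_0830d8_co.ShiftedTrees

/-- Let `G` be a finite tree with at least three vertices, `m` edges and `e` vertices of even degree.
(1) For every `k ≥ 2 e` there is a bijection from the edges onto `{k + 1, ..., k + m}` with pairwise
distinct vertex sums, such that vertices of larger degree have larger sums.
(2) `G` is `2 e`-antimagic: there is an injection from the edges to `{1, ..., m + 2 e}` with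
pairwise distinct vertex sums. -/
theorem result :
    ∀ (V : Type) [Fintype V] [DecidableEq V] (G : SimpleGraph V) [DecidableRel G.Adj],
      G.IsTree → 3 ≤ Fintype.card V →
      (∀ k : ℕ, 2 * (Finset.univ.filter (fun v : V => Even (G.degree v))).card ≤ k →
        ∃ f : Sym2 V → ℕ,
          Set.BijOn f G.edgeSet (Set.Icc (k + 1) (k + G.edgeFinset.card)) ∧
          Function.Injective (fun v : V => ∑ w ∈ G.neighborFinset v, f s(v, w)) ∧
          ∀ u v : V, G.degree v < G.degree u →
            (∑ w ∈ G.neighborFinset v, f s(v, w)) < (∑ w ∈ G.neighborFinset u, f s(u, w))) ∧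
      (∃ f : Sym2 V → ℕ, Set.InjOn f G.edgeSet ∧
        (∀ a ∈ G.edgeSet, 1 ≤ f a ∧ f a ≤ G.edgeFinset.card +
          2 * (Finset.univ.filter (fun v : V => Even (G.degree v))).card) ∧
        Function.Injective (fun v : V => ∑ w ∈ G.neighborFinset v, f s(v, w))) := by
  intro V _ _ G _ hG hn
  refine ⟨fun k hk => Pool.Agent.TH529.SH.tree_shift G hG hn k hk, ?_⟩
  obtain ⟨f, h1, h2, -⟩ := Pool.Agent.TH529.SH.tree_shift G hG hn _ le_rfl
  refine ⟨f, h1.injOn, ?_, h2⟩
  intro a ha
  have h3 := h1.mapsTo ha
  rw [Set.mem_Icc] at h3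
  omega

end Pool.Agent.Results.MP_0830d8_co.ShiftedTrees
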